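import Pool.Agent.Q37.GraphCurve.HouseBetti

/-!
MP_0dc0f9 (Q1), disproof: for the graph on six vertices consisting of a triangle and a four-cycle
sharing an edge, with a pendant vertex attached to the four-cycle, there is a graph curve in `ℙ⁴`
with `b_{1,3} ≠ 1` although the graph has girth `3`, exactly one triangle, and `p = 1 = γ - 2`.
-/

open Q37.GraphCurve

namespace Pool.Agent.Results.MP_0dc0f9_ag.HouseWithPendant

universe u

/-- Over every algebraically closed field of characteristic zero the equality
`b_{γ-2,γ} = #(γ-cycles)` fails for some graph curve of some graph `G` satisfying all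
hypotheses with `γ - 2 ≤ p`. -/
theorem result (K : Type u) [Field K] [IsAlgClosed K] [CharZero K] :
    ¬ ∀ (d N p : ℕ) (G : SimpleGraph (Fin d)), G.Connected → IsPlanar G →
      (∀ v, (G.neighborSet v).ncard ≤ 3) → IsSparse G → ¬ G.IsAcyclic →
      (d : ℤ) = 2 * genus G + 1 + p → (N : ℤ) = d - genus G + 1 → G.girth ≤ p + 2 →
      ∀ L : Fin d → Submodule K (Fin N → K), IsGraphCurve G L →
        betti (curveIdeal L) (G.girth - 2) 1 = numCycles G G.girth := by
  intro h
  have h1 := h 6 5 1 house house_connected house_planar house_degree house_sparse
    house_not_acyclic (by rw [house_genus]; norm_num) (by rw [house_genus]; norm_num)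
    (by rw [house_girth]) (hL K) hL_isGraphCurve
  rw [house_girth, house_numCycles] at h1
  exact house_betti h1

end Pool.Agent.Results.MP_0dc0f9_ag.HouseWithPendant
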